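import Pool.Agent.NH75.PC.FinalVAll

set_option autoImplicit false

/-!
# Changes of all linear patterns of the partition function modulo 2 (MP_ebc808_nt)

Let `c` be a nonzero vector over the field with two elements, `S n = ∑ c i * p (n + i)` modulo 2,
`k ≥ 1` and `ε > 0`. For all large `x`, at least `√x (log x) ^ (1 - ε)` of the `n ≤ x` satisfy
`S n = 0` and `S (n + k) = 1`, and at least as many satisfy `S n = 1` and `S (n + k) = 0`.
For `c = 1` this is the assertion on the parity of `p n` and `p (n + k)`.
(The starting repository has the bound `√x (log log x) ^ K / log x` for all `k` and all patterns.)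

Method. The argument of `Pool.Agent.H307R2.OP` (odd values of `p`), restricted to a residue class modulo
a large power of 3, with an additional factor `3 ^ v`, `v` even. Let `3 m + 1 = 4 ^ r` and
`κ = 2 ^ (r - 1)`. The coefficient of `D ^ m` modulo 2 at `8 n + m` is the sum of the
`p (n - 4 ^ r g_j)`; it vanishes at the integers which are divisible by `3 ^ (κ - 1)` but not by
`3 ^ κ` (and by a similar power if multiplied by `3 ^ v`), and it is 1 at `3 ^ v` times a product of
`κ - 1` distinct primes `≡ 5 (mod 8)` (two of them may be `≡ 3`). If `3 ^ v` divides `h` and `N` is
such a product with a suitable residue modulo a power of 3 of size `3 ^ κ`, then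
`p n + p (n + h)` is odd for some `n` with `24 n + 4 ^ r u ^ 2 = 3 N + 1`. Here `κ` is about
`(log x) ^ (1 - ε)`, so the modulus `3 ^ κ` is much larger than every power of `log x`. The tuples of
primes are equidistributed enough in the classes modulo `3 ^ κ`: the sum of a nonprincipal character
modulo `3 ^ κ` over a block of primes has absolute value at most `(1 - 1 / 500)` times the number of
the primes (by the Brun-Titchmarsh inequality modulo `3 ^ κ` and the prime number theorem modulo 9),
and a bounded number of factors from one block gives a lower bound of the correct order for the number of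
the tuples in each class (part `Low`). In the upper bounds (tuples that are lost, multiplicities) the
condition modulo `3 ^ κ` is put on `u`, which is prime to 3, so that there are only two classes, or on
the largest prime (Brun-Titchmarsh). Every nonzero polynomial over `F_2` divides
`X ^ s * (1 + X ^ (3 ^ v * h))` for some `s`, some even `v` and some `h` prime to 3; with polynomial
algebra over `F_2` and a telescoping sum this gives all patterns, all distances and both directions.

Parts of the proof were written by helper47 and helper59 (multiplicities), helper80 (large kernels),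
helper17 and helper67 (small kernels), helper67 (lost tuples), helper68 and helper49 (counting step,
final step).
-/

namespace Pool.Agent.Results.MP_ebc808_nt.AllPatternsSqrtLog

theorem result (L : ℕ) (c : Fin (L + 1) → ZMod 2) (hc : c ≠ 0) (k : ℕ) (hk : 0 < k)
    (ε : ℝ) (hε : 0 < ε) :
    ∃ x0 : ℝ, ∀ x : ℕ, x0 ≤ x →
      Real.sqrt x * Real.log x ^ (1 - ε) ≤ (((Finset.range (x + 1)).filter (fun n =>
        ∑ i : Fin (L + 1), c i * (Fintype.card (Nat.Partition (n + i)) : ZMod 2) = 0 ∧
        ∑ i : Fin (L + 1), c i * (Fintype.card (Nat.Partition (n + k + i)) : ZMod 2) = 1)).card :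
          ℝ) ∧
      Real.sqrt x * Real.log x ^ (1 - ε) ≤ (((Finset.range (x + 1)).filter (fun n =>
        ∑ i : Fin (L + 1), c i * (Fintype.card (Nat.Partition (n + i)) : ZMod 2) = 1 ∧
        ∑ i : Fin (L + 1), c i * (Fintype.card (Nat.Partition (n + k + i)) : ZMod 2) = 0)).card :
          ℝ) :=
  Pool.Agent.NH75.PC.patternsV Pool.Agent.NH75.PC.finalV_main L c hc k hk ε hε

end Pool.Agent.Results.MP_ebc808_nt.AllPatternsSqrtLog
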