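import Pool.Agent.NH21.AU.Fin2
import Pool.Agent.NH21.AU.DEP
import Pool.Agent.NH21.AU.ROOT
import Pool.Agent.NH21.AU.CRT2
import Pool.Agent.NH21.AU.MUL
import Pool.Agent.NH21.AU.COMB2
import Pool.Agent.NH21.AU.CLS
import Pool.Agent.NH21.AU.PAT
import Pool.Agent.NH21.AU.Dist

set_option autoImplicit false

/-!
# Counting the agreements and disagreements of the partition function modulo 2 with an automatic sequence (MP_ebc808_nt)

Let `u` be a 2-automatic sequence with values in the field with two elements (for instance the sequence of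
Thue and Morse, an eventually periodic sequence, the indicator of the powers of two), and let
`W n = ∑ c i n * p (n + i)` be a nonzero linear pattern of the partition function modulo 2, with coefficients
`c i n` that depend on `n` modulo `2 ^ b` only (for instance `c i n = c i` in one class modulo `2 ^ b` and `0`
in the other classes). For every distance `k ≥ 1`, every `K` and all large `x`, at least
`√x (log log x) ^ K / log x` of the `n ≤ x` satisfy `W n = u n` and `W (n + k) ≠ u (n + k)`, and at least as many
satisfy `W n ≠ u n` and `W (n + k) = u (n + k)`. (For `u = 0` and in place of the changes the number of the `n`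
with `W n = 1` this is the starting hand-in `PatternCounts`; the starting hand-in
`AutomaticSequences` gives one `n` with `W n = u n` and one with `W n ≠ u n` in every interval
`[A, C (A + 1)]`, that is of the order of `log x` of them.)

Method. The series `U = ∑ u n X ^ n` satisfies a relation `∑ a i * U ^ (4 ^ i) = 0` with polynomials `a i`,
`a 0 ≠ 0` (linear algebra over `F_2[X]` in the 2-kernel; extraction of `4 ^ i`-th roots). If `R` is the
difference of the series of the pattern and of `U`, then the number of the nonzero coefficients of `R` up to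
`x` is at least a constant times that of `∑ a i * R ^ (4 ^ i)`, which is `∑ b i r * P_r ^ (4 ^ i)` with other
polynomials, `b 0 r ≠ 0` for some `r`; here `P = 1 / f`, `f = ∏ (1 - X ^ n)`, and `P_r` is the part of `P` with
exponents in the class of `r` modulo `2 ^ b`. Multiplied by `f ^ (4 ^ E)` this is
`∑ b i r * ((f ^ (3 m_i))_r) ^ (4 ^ i)`, `3 m_i + 1 = 4 ^ (E - i)`. The coefficients of `f ^ (3 m)` are those of
`D ^ m`, `D` the reduction of the discriminant, at the exponents `8 n + m`; by the theory of Nicolas and Serre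
(starting files) they vanish if sufficiently many primes `≡ 3 (mod 8)` divide the exponent exactly once. All the
exponents that occur for a given `n` (for all `i` and all the monomials of the `b i r`) are, up to powers of four,
of the form `z + h` with different integers `h`, exactly one of which is `0`; so all terms but one are made zero
by congruences on `z` (and by its class modulo `8 * 2 ^ b`), and the remaining one is 1 for sufficiently many
`z`. For the changes at distance `k` this is applied to the pattern `W n + W (n + k)` and the sequence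
`u n + u (n + k)`; the numbers of the changes in the two directions differ by at most `k`.

Parts of the proof were written by helper68 (DEP), helper41 (ROOT), helper23 (CRT), helper89 (CRT2), helper64 (MUL,
COMB2), helper38 (COMB), helper58 (CLS) and helper48 (PAT); `Many`, `Vanish` and the transfer are those of
`Pool.Agent.R836.PP` (starting files).
-/

namespace Pool.Agent.Results.MP_ebc808_nt.AutomaticSequencesCount

/-- `u` is 2-automatic: its 2-kernel, the set of the sequences `n ↦ u (2 ^ k * n + r)`, `0 ≤ r < 2 ^ k`, is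
finite -/
def IsAutomatic (u : ℕ → ZMod 2) : Prop :=
  {v : ℕ → ZMod 2 | ∃ k r : ℕ, r < 2 ^ k ∧ v = fun n => u (2 ^ k * n + r)}.Finite

/-- the sum of the `c n i * p (n + i)`, `0 ≤ i ≤ L`, modulo 2 -/
def W {L : ℕ} (c : ℕ → Fin (L + 1) → ZMod 2) (n : ℕ) : ZMod 2 :=
  ∑ i : Fin (L + 1), c n i * (Fintype.card (Nat.Partition (n + i)) : ZMod 2)

theorem result (u : ℕ → ZMod 2) (hu : IsAutomatic u) (b L : ℕ) (c : ℕ → Fin (L + 1) → ZMod 2)
    (hper : ∀ n i, c (n + 2 ^ b) i = c n i) (hc : ∃ n i, c n i ≠ 0) (k : ℕ) (hk : 0 < k) (K : ℕ) :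
    ∃ x0 : ℕ, ∀ x : ℕ, x0 ≤ x →
      √x * Real.log (Real.log x) ^ K / Real.log x ≤ (((Finset.range (x + 1)).filter fun n =>
        W c n = u n ∧ W c (n + k) ≠ u (n + k)).card : ℝ) ∧
      √x * Real.log (Real.log x) ^ K / Real.log x ≤ (((Finset.range (x + 1)).filter fun n =>
        W c n ≠ u n ∧ W c (n + k) = u (n + k)).card : ℝ) := by
  have hu' : Pool.Agent.NH21.AU.Aut (fun n => u n + u (n + k)) :=
    Pool.Agent.NH21.AU.Dist.aut_add u hu k
  obtain ⟨X1, h1⟩ := Pool.Agent.NH21.AU.Fin2.main2 Pool.Agent.NH21.AU.t_DEP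
    Pool.Agent.NH21.AU.t_ROOT Pool.Agent.NH21.AU.t_CRT2 Pool.Agent.NH21.AU.t_MUL
    Pool.Agent.NH21.AU.t_COMB2 Pool.Agent.NH21.AU.t_CLS Pool.Agent.NH21.AU.t_PAT
    (fun n => u n + u (n + k)) hu' b (L + k) (Pool.Agent.NH21.AU.Dist.cc c k)
    (Pool.Agent.NH21.AU.Dist.cc_per c hper k)
    (Pool.Agent.NH21.AU.Dist.cc_ne (by positivity) c hper hc k hk) K 3 (by norm_num)
  obtain ⟨X2, h2⟩ := (Pool.Agent.R836.PP.wt_wK K).small (k : ℝ) (by exact_mod_cast hk)
  obtain ⟨X3, h3⟩ := (Pool.Agent.R836.PP.wt_wK K).pos
  refine ⟨max X1 (max X2 X3), fun x hx => ?_⟩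
  simp only [max_le_iff] at hx
  obtain ⟨hx1, hx2, hx3⟩ := hx
  have e1 := h1 x hx1
  have e2 := h2 x hx2
  have e3 := (h3 x hx3).1
  rw [← le_div_iff₀ e3] at e2
  unfold Pool.Agent.R836.PP.wK at e2
  rw [div_div_eq_mul_div] at e2
  set Z : ℝ := √x * Real.log (Real.log x) ^ K / Real.log x with hZ
  have hch := Pool.Agent.NH21.AU.Dist.changes (fun n => W c n ≠ u n) k (x + 1)
  obtain ⟨hle1, hle2⟩ := Pool.Agent.NH21.AU.Dist.updown_le (fun n => W c n ≠ u n) k (x + 1)
  have hV : ((Finset.range (x + 1)).filter fun n =>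
      ∑ i : Fin (L + k + 1), Pool.Agent.NH21.AU.Dist.cc c k n i *
        (Fintype.card (Nat.Partition (n + i)) : ZMod 2) ≠ u n + u (n + k)) =
      (Finset.range (x + 1)).filter fun n => ¬ (W c n ≠ u n ↔ W c (n + k) ≠ u (n + k)) := by
    refine Finset.filter_congr fun n _ => ?_
    rw [Pool.Agent.NH21.AU.Dist.sum_cc c k n
      (fun m => (Fintype.card (Nat.Partition m) : ZMod 2))]
    have h4 : ∀ a b s t : ZMod 2, a + b ≠ s + t ↔ ¬ (a ≠ s ↔ b ≠ t) := by decide
    exact h4 _ _ _ _
  have hN1 : ((Finset.range (x + 1)).filter fun n => ¬ (W c n ≠ u n) ∧ W c (n + k) ≠ u (n + k)) =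
      (Finset.range (x + 1)).filter fun n => W c n = u n ∧ W c (n + k) ≠ u (n + k) :=
    Finset.filter_congr fun n _ => by rw [not_not]
  have hN2 : ((Finset.range (x + 1)).filter fun n => W c n ≠ u n ∧ ¬ (W c (n + k) ≠ u (n + k))) =
      (Finset.range (x + 1)).filter fun n => W c n ≠ u n ∧ W c (n + k) = u (n + k) :=
    Finset.filter_congr fun n _ => by rw [not_not]
  rw [hN1, hN2] at hch hle1 hle2
  set N1 : ℕ := ((Finset.range (x + 1)).filter fun n =>
    W c n = u n ∧ W c (n + k) ≠ u (n + k)).card with hN1d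
  set N2 : ℕ := ((Finset.range (x + 1)).filter fun n =>
    W c n ≠ u n ∧ W c (n + k) = u (n + k)).card with hN2d
  have e4 : 3 * Z ≤ (N1 : ℝ) + N2 := by
    refine e1.trans (le_of_eq ?_)
    rw [hV, hch]
    push_cast
    ring
  have e5 : (N1 : ℝ) ≤ N2 + k := by exact_mod_cast hle1
  have e6 : (N2 : ℝ) ≤ N1 + k := by exact_mod_cast hle2
  constructor <;> linarith

end Pool.Agent.Results.MP_ebc808_nt.AutomaticSequencesCount
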